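import Mathlib
import Pool.Agent.Y119.HG.Defs

/-!
# Project HG: relations of bounded degree pass to the ultraproduct
-/

set_option autoImplicit false

namespace Pool.Agent.Y232.HG

open Pool.Agent.Y119.HG

/-- the germ of a sequence, as a ring homomorphism -/
noncomputable def gmH : (ℕ → ℂ) →+* UL :=
  Filter.Germ.coeRingHom (Filter.hyperfilter ℕ : Filter ℕ)

theorem gmH_apply (f : ℕ → ℂ) : gmH f = gm f := rfl

theorem gm_eq_zero {f : ℕ → ℂ} :
    gm f = 0 ↔ ∀ᶠ i in (Filter.hyperfilter ℕ : Filter ℕ), f i = 0 := by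
  have h : (0 : UL) = ((0 : ℕ → ℂ) : Filter.Germ (Filter.hyperfilter ℕ : Filter ℕ) ℂ) := rfl
  unfold gm
  rw [h, Filter.Germ.coe_eq]
  rfl

/-- the components of a polynomial with coefficients in the ultraproduct -/
noncomputable def comp {ι : Type} {K : ℕ → IntermediateField ℚ ℂ}
    (P : MvPolynomial ι (UK K)) (f : (ι →₀ ℕ) → ℕ → ℂ) (hf : ∀ m i, f m i ∈ K i) (i : ℕ) :
    MvPolynomial ι (K i) :=
  ∑ m ∈ P.support, MvPolynomial.monomial m ⟨f m i, hf m i⟩

theorem comp_deg {ι : Type} {K : ℕ → IntermediateField ℚ ℂ}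
    (P : MvPolynomial ι (UK K)) (f : (ι →₀ ℕ) → ℕ → ℂ) (hf : ∀ m i, f m i ∈ K i) (i : ℕ) :
    (comp P f hf i).totalDegree ≤ P.totalDegree := by
  unfold comp
  refine MvPolynomial.totalDegree_finsetSum_le fun m hm => ?_
  exact (MvPolynomial.totalDegree_monomial_le _ _).trans (MvPolynomial.le_totalDegree hm)

theorem aeval_comp {ι : Type} [Fintype ι] {K : ℕ → IntermediateField ℚ ℂ}
    (P : MvPolynomial ι (UK K)) (f : (ι →₀ ℕ) → ℕ → ℂ) (hf : ∀ m i, f m i ∈ K i)
    (hfP : ∀ m, ((P.coeff m : UK K) : UL) = gm (f m)) (y : ι → ℕ → ℂ) :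
    MvPolynomial.aeval (fun j => gm (y j)) P =
      gm (fun i => MvPolynomial.aeval (fun j => y j i) (comp P f hf i)) := by
  have h1 : (fun i => MvPolynomial.aeval (fun j => y j i) (comp P f hf i)) =
      ∑ m ∈ P.support, f m * ∏ j, y j ^ m j := by
    funext i
    rw [comp, map_sum, Finset.sum_apply]
    refine Finset.sum_congr rfl fun m _ => ?_
    rw [MvPolynomial.aeval_monomial, Finsupp.prod_fintype _ _ (fun j => pow_zero _),
      Pi.mul_apply, Finset.prod_apply]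
    rfl
  rw [h1, ← gmH_apply, map_sum, MvPolynomial.aeval_def, MvPolynomial.eval₂_eq']
  refine Finset.sum_congr rfl fun m _ => ?_
  rw [map_mul, map_prod, gmH_apply, ← hfP]
  rfl

theorem t_REL : T_REL := by
  intro ι _ K x Zs H P hP g hg
  have hex : ∀ m : ι →₀ ℕ, ∃ f : ℕ → ℂ, (∀ i, f i ∈ K i) ∧
      ((P.coeff m : UK K) : UL) = (f : Filter.Germ (Filter.hyperfilter ℕ : Filter ℕ) ℂ) :=
    fun m => (P.coeff m).2
  choose f hf hfP using hex
  rw [aeval_comp P f hf hfP (fun j i => x i j), gm_eq_zero] at hP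
  rw [aeval_comp P f hf hfP g, gm_eq_zero]
  obtain ⟨i0, hi0⟩ := H P.totalDegree
  have h2 : ∀ᶠ i in (Filter.hyperfilter ℕ : Filter ℕ), i0 ≤ i :=
    Nat.hyperfilter_le_atTop (Filter.eventually_ge_atTop i0)
  filter_upwards [hP, hg, h2] with i h3 h4 h5
  exact hi0 i h5 (comp P f hf i) (comp_deg P f hf i) h3 _ h4

end Pool.Agent.Y232.HG
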